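import Mathlib

set_option autoImplicit false

open Finset

namespace Pool.Agent.E8helper61.EF

/-- The `k`-wise union property: any `k` members have a union of size at most `d`. -/
def KU {n : ℕ} (k d : ℕ) (A : Finset (Finset (Fin n))) : Prop :=
  ∀ f : Fin k → Finset (Fin n), (∀ j, f j ∈ A) → (univ.biUnion f).card ≤ d

def Down {n : ℕ} (A : Finset (Finset (Fin n))) : Prop := ∀ B ∈ A, ∀ C, C ⊆ B → C ∈ A

def Shifted {n : ℕ} (A : Finset (Finset (Fin n))) : Prop :=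
  ∀ B ∈ A, ∀ i j : Fin n, i < j → j ∈ B → i ∉ B → insert i (B.erase j) ∈ A

/-- all members contain only elements `< M` -/
def Supp {n : ℕ} (M : ℕ) (A : Finset (Finset (Fin n))) : Prop := ∀ B ∈ A, ∀ x ∈ B, x.val < M

/-- the near part and the far part -/
def near {n : ℕ} (M : ℕ) (B : Finset (Fin n)) : Finset (Fin n) := B.filter (fun x => x.val < M)
def far {n : ℕ} (M : ℕ) (B : Finset (Fin n)) : Finset (Fin n) := B.filter (fun x => M ≤ x.val)

/-- near parts of the members with `s` far elements -/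
def NF {n : ℕ} (A : Finset (Finset (Fin n))) (M s : ℕ) : Finset (Finset (Fin n)) :=
  (A.filter (fun B => (far M B).card = s)).image (near M)

def bb (k m d : ℕ) : ℕ := ∑ s ∈ range (d / k + 1), m.choose s * 2 ^ (d - k * s)

def gg (n k d : ℕ) : ℕ := 2 ^ (d % k) * ∑ j ∈ range (d / k + 1), (n - d % k).choose j

/-- the block `{r, ..., r+t}` -/
def blk (n r t : ℕ) : Finset (Fin n) := univ.filter (fun x => r ≤ x.val ∧ x.val ≤ r + t)

/-- SHIFT -/
def ShiftStatement : Prop :=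
  ∀ (n k d : ℕ) (A : Finset (Finset (Fin n))), 1 ≤ k → KU k d A →
    ∃ B : Finset (Finset (Fin n)), A.card ≤ B.card ∧ KU k d B ∧ Down B ∧ Shifted B ∧
      ∀ M : ℕ, Supp M A → Supp M B

/-- MOVE -/
def MoveStatement : Prop :=
  ∀ (n : ℕ) (A : Finset (Finset (Fin n))), Down A → Shifted A → ∀ B ∈ A, ∀ X Y : Finset (Fin n),
    X ⊆ B → Y.card ≤ X.card → Disjoint Y (B \ X) → (∀ y ∈ Y, ∀ x ∈ X, y < x) →
    (B \ X) ∪ Y ∈ A

/-- NEAR -/
def NearStatement : Prop :=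
  MoveStatement → ∀ (n k d M : ℕ) (A : Finset (Finset (Fin n))), 1 ≤ k → k ≤ d → 2 * d ≤ M →
    M ≤ n → Down A → Shifted A → KU k d A →
    (∀ B ∈ A, (far M B).card ≤ d / k) ∧
    (∀ s : ℕ, s ≤ d / k → ∀ f : Fin k → Finset (Fin n), (∀ j, f j ∈ NF A M s) →
      (univ.biUnion f).card + k * s ≤ d)

/-- TOP -/
def TopStatement : Prop :=
  MoveStatement → ∀ (n k d M : ℕ) (A : Finset (Finset (Fin n))), 1 ≤ k → k ≤ d → 2 * d ≤ M →
    M ≤ n → Down A → Shifted A → KU k d A → blk n (d % k) (d / k) ∈ A →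
    2 * (NF A M (d / k)).card ≤ 2 ^ (d % k)

/-- SMALL -/
def SmallStatement : Prop :=
  ∀ (n k d : ℕ) (A : Finset (Finset (Fin n))), 1 ≤ k → 2 * d ≤ n → 1 ≤ d → Down A → Shifted A →
    blk n (d % k) (d / k) ∉ A → A.card ≤ gg n k d

/-- REC -/
def RecStatement : Prop :=
  ShiftStatement → MoveStatement → ∀ (n k M d : ℕ) (A : Finset (Finset (Fin n))), 1 ≤ k →
    M ≤ n → KU k d A → Supp M A → A.card ≤ bb k M d

/-- TOTAL -/
def TotalStatement : Prop :=
  ∀ (n M t : ℕ) (A : Finset (Finset (Fin n))), M ≤ n → (∀ B ∈ A, (far M B).card ≤ t) →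
    A.card ≤ ∑ s ∈ range (t + 1), (n - M).choose s * (NF A M s).card

/-- NUM -/
def NumStatement : Prop :=
  ∀ n k d : ℕ, 1 ≤ k → k ≤ d → 2 * d ≤ n →
    8 * (d / k) * 2 ^ k * (2 ^ k + 1) ^ (2 * d) ≤ (n - 2 * d) * 2 ^ (2 * k * d) →
    ∀ x : ℕ, 2 * x ≤ 2 ^ (d % k) →
      (n - 2 * d).choose (d / k) * x + ∑ s ∈ range (d / k), (n - 2 * d).choose s *
        bb k (2 * d) (d - k * s) ≤ gg n k d

/-- LOWER: the construction. -/
def LowerStatement : Prop :=
  ∀ n k d i : ℕ, 1 ≤ k → d ≤ n → k * i ≤ d → ∃ A : Finset (Finset (Fin n)), KU k d A ∧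
    A.card = 2 ^ (d - k * i) * ∑ j ∈ range (i + 1), (n - d + k * i).choose j

end Pool.Agent.E8helper61.EF
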