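import Mathlib
import Pool.Agent.E8helper61.EF.Stm

set_option autoImplicit false

open Finset

namespace Pool.Agent.E8helper61.EF

theorem nf_bound (hS : ShiftStatement) (hMo : MoveStatement) (hN : NearStatement)
    (hR : RecStatement) {n k d : ℕ} (A : Finset (Finset (Fin n))) (hk : 1 ≤ k) (hkd : k ≤ d)
    (hn : 2 * d ≤ n) (hD : Down A) (hSh : Shifted A) (hA : KU k d A) (s : ℕ) (hs : s ≤ d / k) :
    (NF A (2 * d) s).card ≤ bb k (2 * d) (d - k * s) := by
  have h1 := (hN hMo n k d (2 * d) A hk hkd le_rfl hn hD hSh hA).2 s hs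
  refine hR hS hMo n k (2 * d) (d - k * s) (NF A (2 * d) s) hk hn ?_ ?_
  · intro f hf
    have := h1 f hf
    omega
  · intro B hB x hx
    unfold NF at hB
    obtain ⟨C, _, rfl⟩ := mem_image.1 hB
    unfold near at hx
    exact (mem_filter.1 hx).2

theorem upper (hS : ShiftStatement) (hMo : MoveStatement) (hN : NearStatement)
    (hT : TopStatement) (hSm : SmallStatement) (hR : RecStatement) (hTo : TotalStatement)
    (hNum : NumStatement) {n k d : ℕ} (hk : 1 ≤ k) (hkd : k ≤ d) (hn : 2 * d ≤ n)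
    (hcond : 8 * (d / k) * 2 ^ k * (2 ^ k + 1) ^ (2 * d) ≤ (n - 2 * d) * 2 ^ (2 * k * d))
    (A : Finset (Finset (Fin n))) (hA : KU k d A) : A.card ≤ gg n k d := by
  obtain ⟨B, hAB, hB, hD, hSh, -⟩ := hS n k d A hk hA
  refine hAB.trans ?_
  by_cases hblk : blk n (d % k) (d / k) ∈ B
  · have htop := hT hMo n k d (2 * d) B hk hkd le_rfl hn hD hSh hB hblk
    have hfar := (hN hMo n k d (2 * d) B hk hkd le_rfl hn hD hSh hB).1
    have htot := hTo n (2 * d) (d / k) B hn hfar
    have hnum := hNum n k d hk hkd hn hcond (NF B (2 * d) (d / k)).card htop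
    rw [sum_range_succ] at htot
    calc B.card ≤ _ := htot
      _ ≤ (n - 2 * d).choose (d / k) * (NF B (2 * d) (d / k)).card +
          ∑ s ∈ range (d / k), (n - 2 * d).choose s * bb k (2 * d) (d - k * s) := by
          rw [add_comm]
          apply Nat.add_le_add_left
          apply sum_le_sum
          intro s hs
          apply Nat.mul_le_mul_left
          exact nf_bound hS hMo hN hR B hk hkd hn hD hSh hB s (mem_range.1 hs).le
      _ ≤ _ := hnum
  · exact hSm n k d B hk hn (le_trans hk hkd) hD hSh hblk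

theorem exact (hS : ShiftStatement) (hMo : MoveStatement) (hN : NearStatement)
    (hT : TopStatement) (hSm : SmallStatement) (hR : RecStatement) (hTo : TotalStatement)
    (hNum : NumStatement) (hL : LowerStatement) {n k d : ℕ} (hk : 1 ≤ k) (hkd : k ≤ d)
    (hn : 2 * d ≤ n)
    (hcond : 8 * (d / k) * 2 ^ k * (2 ^ k + 1) ^ (2 * d) ≤ (n - 2 * d) * 2 ^ (2 * k * d)) :
    IsGreatest
        {m : ℕ | ∃ A : Finset (Finset (Fin n)), KU k d A ∧ A.card = m}
        ((range (d / k + 1)).sup
          (fun i => 2 ^ (d - k * i) * ∑ j ∈ range (i + 1), (n - d + k * i).choose j)) ∧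
    ((range (d / k + 1)).sup
          (fun i => 2 ^ (d - k * i) * ∑ j ∈ range (i + 1), (n - d + k * i).choose j)) =
      2 ^ (d % k) * ∑ j ∈ range (d / k + 1), (n - d % k).choose j := by
  have hdm := Nat.div_add_mod d k
  have hmr : d - k * (d / k) = d % k := by omega
  have hnr : n - d + k * (d / k) = n - d % k := by
    have : k * (d / k) ≤ d := Nat.mul_div_le d k
    omega
  have hsup : (range (d / k + 1)).sup
          (fun i => 2 ^ (d - k * i) * ∑ j ∈ range (i + 1), (n - d + k * i).choose j) =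
      2 ^ (d % k) * ∑ j ∈ range (d / k + 1), (n - d % k).choose j := by
    apply le_antisymm
    · apply Finset.sup_le
      intro i hi
      have hki : k * i ≤ d :=
        (Nat.mul_le_mul_left k (Nat.lt_succ_iff.1 (mem_range.1 hi))).trans (Nat.mul_div_le d k)
      obtain ⟨A, hA, hc⟩ := hL n k d i hk (by omega) hki
      have h1 := upper hS hMo hN hT hSm hR hTo hNum hk hkd hn hcond A hA
      rw [hc] at h1
      exact h1
    · have h1 := Finset.le_sup (s := range (d / k + 1))
        (f := fun i => 2 ^ (d - k * i) * ∑ j ∈ range (i + 1), (n - d + k * i).choose j)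
        (mem_range.2 (Nat.lt_succ_self (d / k)))
      simp only [hmr, hnr] at h1
      exact h1
  refine ⟨⟨?_, ?_⟩, hsup⟩
  · rw [hsup]
    obtain ⟨A, hA, hc⟩ := hL n k d (d / k) hk (by omega) (Nat.mul_div_le d k)
    exact ⟨A, hA, by rw [hc, hmr, hnr]⟩
  · rintro m ⟨A, hA, rfl⟩
    rw [hsup]
    exact upper hS hMo hN hT hSm hR hTo hNum hk hkd hn hcond A hA

end Pool.Agent.E8helper61.EF
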