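import Mathlib
import Pool.Agent.E8helper61.EF.Stm

set_option autoImplicit false

open Finset

namespace Pool.Agent.E8helper61.EF

/-- NUM2: the stronger form of NUM. -/
def Num2Statement : Prop :=
  ∀ n k d : ℕ, 1 ≤ k → k ≤ d → 9 * (d / k) * (2 ^ k + d) + 2 * d ≤ n →
    ∀ x : ℕ, 2 * x ≤ 2 ^ (d % k) →
      (n - 2 * d).choose (d / k) * x + ∑ s ∈ range (d / k), (n - 2 * d).choose s *
        bb k (2 * d) (d - k * s) ≤ gg n k d

/-- VAND: the exact sum. -/
def VandStatement : Prop :=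
  ∀ n k d : ℕ, 1 ≤ k → k ≤ d → 2 * d ≤ n →
    (n - 2 * d).choose (d / k) * 2 ^ (d % k) + ∑ s ∈ range (d / k), (n - 2 * d).choose s *
        bb k (2 * d) (d - k * s) =
      2 ^ (d % k) * ∑ m ∈ range (d / k + 1), 2 ^ (k * (d / k - m)) * n.choose m

/-- NB: the comparison of binomial coefficients. -/
def NbStatement : Prop :=
  ∀ n k d t : ℕ, 1 ≤ t → t ≤ d → 9 * t * (2 ^ k + d) + 2 * d ≤ n →
    2 * (∑ m ∈ range t, 2 ^ (k * (t - m)) * n.choose m) + 2 * n.choose t ≤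
      2 * (n - d).choose t + (n - 2 * d).choose t

end Pool.Agent.E8helper61.EF
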