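import Mathlib
import Pool.Agent.E8helper61.EF.Stm

set_option autoImplicit false

open Finset

namespace Pool.Agent.E8helper61.EF

/-- FREE -/
def FreeStatement : Prop :=
  MoveStatement → ∀ (n k d : ℕ) (A : Finset (Finset (Fin n))), 1 ≤ k → d ≤ n → Down A →
    Shifted A → KU k d A → ∀ f : Fin k → Finset (Fin n), (∀ j, f j ∈ A) →
    (univ.biUnion (fun j => near d (f j))).card + ∑ j, (far d (f j)).card ≤ d

/-- BLK -/
def BlkStatement : Prop :=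
  FreeStatement → MoveStatement → ∀ (n k d i : ℕ) (A : Finset (Finset (Fin n))), 2 ≤ k → d ≤ n →
    1 ≤ i → k * i ≤ d → Down A → Shifted A → KU k d A → blk n (d - k * i) i ∈ A →
    (1 ≤ d - k * i → KU (k - 1) (d - k * i - 1) (NF A d i)) ∧ (d - k * i = 0 → NF A d i = ∅)

/-- SMALLI -/
def SmallIStatement : Prop :=
  ∀ (n k d i : ℕ) (A : Finset (Finset (Fin n))), 2 ≤ k → d ≤ n → 1 ≤ i → k * i ≤ d → Down A →
    Shifted A → blk n (d - k * i) i ∉ A →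
    A.card ≤ 2 ^ (d - k * i) * ∑ j ∈ range (i + 1), (n - d + k * i).choose j

/-- BB -/
def BbStatement : Prop :=
  ∀ k m d : ℕ, 1 ≤ k → (bb k m d : ℝ) ≤ 2 ^ d * (1 + 1 / 2 ^ k) ^ m

/-- NUMC -/
def NumCStatement : Prop :=
  ∀ k d : ℕ, 6 ≤ k → k ≤ d → d ≤ 2 ^ (k / 2) → ∃ m : ℕ, 1 ≤ m ∧ m < k ∧
    (1 / 2 : ℝ) * (1 + 1 / 2 ^ (k - 1)) ^ d +
      ((d / k : ℕ) : ℝ) * ((1 / 2) ^ m * (1 + 1 / 2 ^ (k - m)) ^ d) ≤ 1

end Pool.Agent.E8helper61.EF
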