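import Mathlib
import Pool.Agent.E8helper61.EF.Stm3
import Pool.Agent.E8helper61.EF.Asm2

set_option autoImplicit false

open Finset

namespace Pool.Agent.E8helper61.EF

/-- The candidate value for `i`. -/
def gi (n k d i : ℕ) : ℕ := 2 ^ (d - k * i) * ∑ j ∈ range (i + 1), (n - d + k * i).choose j

def ff (n k d : ℕ) : ℕ := (range (d / k + 1)).sup (gi n k d)

lemma gi_le_ff {n k d i : ℕ} (hi : i ≤ d / k) : gi n k d i ≤ ff n k d :=
  Finset.le_sup (f := gi n k d) (mem_range.2 (Nat.lt_succ_of_le hi))

lemma wt_le_gi {n k d i : ℕ} : (n - d).choose i * 2 ^ (d - k * i) ≤ gi n k d i := by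
  unfold gi
  rw [mul_comm]
  apply Nat.mul_le_mul_left
  calc (n - d).choose i ≤ (n - d + k * i).choose i := Nat.choose_le_choose i (Nat.le_add_right _ _)
    _ ≤ _ := single_le_sum (f := fun j => (n - d + k * i).choose j) (fun _ _ => Nat.zero_le _)
      (mem_range.2 (Nat.lt_succ_self i))

lemma supp_NF {n d s : ℕ} (A : Finset (Finset (Fin n))) : Supp d (NF A d s) := by
  intro B hB x hx
  unfold NF at hB
  obtain ⟨C, _, rfl⟩ := mem_image.1 hB
  unfold near at hx
  exact (mem_filter.1 hx).2

lemma mem_NF {n d s : ℕ} {A : Finset (Finset (Fin n))} {C : Finset (Fin n)} :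
    C ∈ NF A d s ↔ ∃ B ∈ A, (far d B).card = s ∧ near d B = C := by
  unfold NF
  simp only [mem_image, mem_filter]
  constructor
  · rintro ⟨B, ⟨h1, h2⟩, h3⟩; exact ⟨B, h1, h2, h3⟩
  · rintro ⟨B, h1, h2, h3⟩; exact ⟨B, ⟨h1, h2⟩, h3⟩

/-- members with few far elements, if there is a member with more of them -/
lemma nf_KU (hF : FreeStatement) (hMo : MoveStatement) {n k d s m : ℕ}
    {A : Finset (Finset (Fin n))} (hk : 1 ≤ k) (hdn : d ≤ n) (hD : Down A) (hSh : Shifted A)
    (hA : KU k d A) (hm : m < k) {B₀ : Finset (Fin n)} (hB₀ : B₀ ∈ A)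
    (hs : s < (far d B₀).card) :
    KU (k - m) (d - k * s - m) (NF A d s) := by
  classical
  intro f hf
  choose g hgA hgs hgn using fun j => mem_NF.1 (hf j)
  -- the family of k members
  let F : Fin k → Finset (Fin n) := fun j => if h : j.val < k - m then g ⟨j.val, h⟩ else B₀
  have hFA : ∀ j, F j ∈ A := by
    intro j
    simp only [F]
    split_ifs with h
    · exact hgA _
    · exact hB₀
  have h1 := hF hMo n k d A hk hdn hD hSh hA F hFA
  have h2 : (univ.biUnion f).card ≤ (univ.biUnion (fun j => near d (F j))).card := by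
    apply card_le_card
    intro x hx
    obtain ⟨j, _, hj⟩ := mem_biUnion.1 hx
    refine mem_biUnion.2 ⟨⟨j.val, by omega⟩, mem_univ _, ?_⟩
    have : F ⟨j.val, by omega⟩ = g j := by
      simp only [F]
      rw [dif_pos j.isLt]
    rw [this, hgn j]
    exact hj
  have h3 : (k - m) * s + m * (s + 1) ≤ ∑ j, (far d (F j)).card := by
    have hle : ∀ j : Fin k, (if j.val < k - m then s else s + 1) ≤ (far d (F j)).card := by
      intro j
      simp only [F]
      split_ifs with h
      · exact (hgs _).ge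
      · exact hs
    have hsum : ∑ j : Fin k, (if j.val < k - m then s else s + 1) = (k - m) * s + m * (s + 1) := by
      rw [Finset.sum_ite, sum_const, sum_const, smul_eq_mul, smul_eq_mul]
      have c1 : (univ.filter (fun j : Fin k => j.val < k - m)).card = k - m := by
        rw [Fin.card_filter_val_lt]
        omega
      have c2 : (univ.filter (fun j : Fin k => ¬ j.val < k - m)).card = m := by
        have := Finset.card_filter_add_card_filter_not (s := (univ : Finset (Fin k)))
          (fun j : Fin k => j.val < k - m)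
        rw [c1, card_univ, Fintype.card_fin] at this
        omega
      rw [c1, c2]
    rw [← hsum]
    exact sum_le_sum (fun j _ => hle j)
  have h4 : (k - m) * s + m * (s + 1) = k * s + m := by
    obtain ⟨c, rfl⟩ : ∃ c, k = c + m := ⟨k - m, by omega⟩
    rw [Nat.add_sub_cancel]
    ring
  omega

theorem upper3 (hS : ShiftStatement) (hMo : MoveStatement) (hF : FreeStatement)
    (hBl : BlkStatement) (hSm : SmallIStatement) (hR : RecStatement) (hTo : TotalStatement)
    (hBb : BbStatement) {n k d m : ℕ} (hk : 2 ≤ k) (hkd : k ≤ d) (hdn : d ≤ n) (hm1 : 1 ≤ m)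
    (hmk : m < k)
    (hnum : (1 / 2 : ℝ) * (1 + 1 / 2 ^ (k - 1)) ^ d +
      ((d / k : ℕ) : ℝ) * ((1 / 2) ^ m * (1 + 1 / 2 ^ (k - m)) ^ d) ≤ 1)
    (A : Finset (Finset (Fin n))) (hA : KU k d A) : A.card ≤ ff n k d := by
  classical
  obtain ⟨B, hAB, hB, hD, hSh, -⟩ := hS n k d A (by omega) hA
  refine hAB.trans ?_
  rcases B.eq_empty_or_nonempty with rfl | hne
  · simp
  obtain ⟨B₀, hB₀, hmax⟩ := exists_max_image B (fun C => (far d C).card) hne
  obtain ⟨i, hi⟩ : ∃ i, (far d B₀).card = i := ⟨_, rfl⟩
  have hfar : ∀ C ∈ B, (far d C).card ≤ i := fun C hC => hi ▸ hmax C hC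
  have hki : k * i ≤ d := by
    have h1 := hF hMo n k d B (by omega) hdn hD hSh hB (fun _ => B₀) (fun _ => hB₀)
    rw [sum_const, card_univ, Fintype.card_fin, smul_eq_mul, hi] at h1
    omega
  have hidk : i ≤ d / k := (Nat.le_div_iff_mul_le (by omega)).2 (by rw [mul_comm]; exact hki)
  have htot := hTo n d i B hdn hfar
  rcases Nat.eq_zero_or_pos i with hi0 | hi1
  · -- all members are inside `[0,d)`
    subst hi0
    have hN0 : (NF B d 0).card ≤ 2 ^ d := by
      have hsub : NF B d 0 ⊆ (univ.filter (fun x : Fin n => x.val < d)).powerset := by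
        intro C hC
        rw [mem_powerset]
        intro x hx
        exact mem_filter.2 ⟨mem_univ _, supp_NF B C hC x hx⟩
      have h2 := card_le_card hsub
      rw [card_powerset, Fin.card_filter_val_lt] at h2
      exact h2.trans (Nat.pow_le_pow_right (by norm_num) (min_le_right _ _))
    have h3 : gi n k d 0 = 2 ^ d := by
      unfold gi; simp
    have h4 : B.card ≤ (NF B d 0).card := by simpa using htot
    calc B.card ≤ _ := h4
      _ ≤ 2 ^ d := hN0
      _ = gi n k d 0 := h3.symm
      _ ≤ _ := gi_le_ff (Nat.zero_le _)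
  · by_cases hblk : blk n (d - k * i) i ∈ B
    · obtain ⟨hb1, hb2⟩ := hBl hF hMo n k d i B hk hdn hi1 hki hD hSh hB hblk
      have hmem : near d B₀ ∈ NF B d i := mem_NF.2 ⟨B₀, hB₀, hi, rfl⟩
      have hr1 : 1 ≤ d - k * i := by
        by_contra hcon
        have h5 := hb2 (by omega)
        rw [h5] at hmem
        exact notMem_empty _ hmem
      have hKU1 := hb1 hr1
      have hc1 := hR hS hMo n (k - 1) d (d - k * i - 1) (NF B d i) (by omega) hdn hKU1
        (supp_NF B)
      have hc1' : ((NF B d i).card : ℝ) ≤ 2 ^ (d - k * i - 1) * (1 + 1 / 2 ^ (k - 1)) ^ d :=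
        (Nat.cast_le.2 hc1).trans (hBb (k - 1) d (d - k * i - 1) (by omega))
      have hcs : ∀ s ∈ range i, ((NF B d s).card : ℝ) ≤
          2 ^ (d - k * s - m) * (1 + 1 / 2 ^ (k - m)) ^ d := by
        intro s hs
        have hs' := mem_range.1 hs
        have hKU := nf_KU hF hMo (by omega) hdn hD hSh hB hmk hB₀ (hi.symm ▸ hs')
        have h6 := hR hS hMo n (k - m) d (d - k * s - m) (NF B d s) (by omega) hdn hKU
          (supp_NF B)
        exact (Nat.cast_le.2 h6).trans (hBb (k - m) d (d - k * s - m) (by omega))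
      have hff : ∀ s, s ≤ i → ((n - d).choose s : ℝ) * 2 ^ (d - k * s) ≤ ff n k d := by
        intro s hs
        have h7 : (n - d).choose s * 2 ^ (d - k * s) ≤ ff n k d :=
          wt_le_gi.trans (gi_le_ff (hs.trans hidk))
        exact_mod_cast h7
      have hff0 : (0 : ℝ) ≤ ff n k d := Nat.cast_nonneg _
      have htotR : (B.card : ℝ) ≤ ∑ s ∈ range i, ((n - d).choose s : ℝ) * (NF B d s).card +
          ((n - d).choose i : ℝ) * (NF B d i).card := by
        rw [sum_range_succ] at htot
        exact_mod_cast htot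
      set X : ℝ := (1 + 1 / 2 ^ (k - 1)) ^ d with hX
      set Y : ℝ := (1 + 1 / 2 ^ (k - m)) ^ d with hY
      have hX0 : 0 ≤ X := by rw [hX]; positivity
      have hY0 : 0 ≤ Y := by rw [hY]; positivity
      have hsum1 : ∑ s ∈ range i, ((n - d).choose s : ℝ) * (NF B d s).card ≤
          i * (ff n k d * ((1 / 2) ^ m * Y)) := by
        calc ∑ s ∈ range i, ((n - d).choose s : ℝ) * (NF B d s).card
            ≤ ∑ s ∈ range i, (ff n k d * ((1 / 2) ^ m * Y) : ℝ) := by
              apply sum_le_sum
              intro s hs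
              have hs' := mem_range.1 hs
              have hge : m ≤ d - k * s := by
                have : k * s + k ≤ d := by
                  calc k * s + k = k * (s + 1) := by ring
                    _ ≤ k * i := Nat.mul_le_mul_left k hs'
                    _ ≤ d := hki
                omega
              have h8 : (2 : ℝ) ^ (d - k * s) = 2 ^ (d - k * s - m) * 2 ^ m := by
                rw [← pow_add, Nat.sub_add_cancel hge]
              have h9 : (2 : ℝ) ^ (d - k * s - m) = 2 ^ (d - k * s) * (1 / 2) ^ m := by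
                rw [h8, one_div, inv_pow]
                field_simp
              calc ((n - d).choose s : ℝ) * (NF B d s).card
                  ≤ ((n - d).choose s : ℝ) * (2 ^ (d - k * s - m) * Y) :=
                    mul_le_mul_of_nonneg_left (hcs s hs) (Nat.cast_nonneg _)
                _ = (((n - d).choose s : ℝ) * 2 ^ (d - k * s)) * ((1 / 2) ^ m * Y) := by
                    rw [h9]; ring
                _ ≤ _ := mul_le_mul_of_nonneg_right (hff s hs'.le) (by positivity)
          _ = _ := by rw [sum_const, card_range, nsmul_eq_mul]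
      have hsum2 : ((n - d).choose i : ℝ) * (NF B d i).card ≤ ff n k d * (1 / 2 * X) := by
        have h10 : (2 : ℝ) ^ (d - k * i - 1) = 2 ^ (d - k * i) * (1 / 2) := by
          have : (2 : ℝ) ^ (d - k * i) = 2 ^ (d - k * i - 1) * 2 := by
            rw [← pow_succ, Nat.sub_add_cancel hr1]
          rw [this]; ring
        calc ((n - d).choose i : ℝ) * (NF B d i).card
            ≤ ((n - d).choose i : ℝ) * (2 ^ (d - k * i - 1) * X) :=
              mul_le_mul_of_nonneg_left hc1' (Nat.cast_nonneg _)
          _ = (((n - d).choose i : ℝ) * 2 ^ (d - k * i)) * (1 / 2 * X) := by rw [h10]; ring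
          _ ≤ _ := mul_le_mul_of_nonneg_right (hff i le_rfl) (by positivity)
      have hidk' : (i : ℝ) ≤ ((d / k : ℕ) : ℝ) := by exact_mod_cast hidk
      have hfinal : (B.card : ℝ) ≤ ff n k d := by
        calc (B.card : ℝ) ≤ _ := htotR
          _ ≤ i * (ff n k d * ((1 / 2) ^ m * Y)) + ff n k d * (1 / 2 * X) :=
              add_le_add hsum1 hsum2
          _ = ff n k d * (1 / 2 * X + i * ((1 / 2) ^ m * Y)) := by ring
          _ ≤ ff n k d * (1 / 2 * X + ((d / k : ℕ) : ℝ) * ((1 / 2) ^ m * Y)) := by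
              apply mul_le_mul_of_nonneg_left _ hff0
              have : (0 : ℝ) ≤ (1 / 2) ^ m * Y := by positivity
              nlinarith
          _ ≤ ff n k d * 1 := mul_le_mul_of_nonneg_left hnum hff0
          _ = _ := mul_one _
      exact_mod_cast hfinal
    · exact (hSm n k d i B hk hdn hi1 hki hD hSh hblk).trans (gi_le_ff hidk)

theorem exact3 (hS : ShiftStatement) (hMo : MoveStatement) (hF : FreeStatement)
    (hBl : BlkStatement) (hSm : SmallIStatement) (hR : RecStatement) (hTo : TotalStatement)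
    (hBb : BbStatement) (hL : LowerStatement) {n k d m : ℕ} (hk : 2 ≤ k) (hkd : k ≤ d)
    (hdn : d ≤ n) (hm1 : 1 ≤ m) (hmk : m < k)
    (hnum : (1 / 2 : ℝ) * (1 + 1 / 2 ^ (k - 1)) ^ d +
      ((d / k : ℕ) : ℝ) * ((1 / 2) ^ m * (1 + 1 / 2 ^ (k - m)) ^ d) ≤ 1) :
    IsGreatest {c : ℕ | ∃ A : Finset (Finset (Fin n)), KU k d A ∧ A.card = c} (ff n k d) := by
  refine ⟨?_, ?_⟩
  · obtain ⟨i, hi, hmaxi⟩ := Finset.exists_mem_eq_sup (range (d / k + 1))
      ⟨0, mem_range.2 (Nat.succ_pos _)⟩ (gi n k d)
    have hki : k * i ≤ d :=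
      (Nat.mul_le_mul_left k (Nat.lt_succ_iff.1 (mem_range.1 hi))).trans (Nat.mul_div_le d k)
    obtain ⟨A, hA, hc⟩ := hL n k d i (by omega) hdn hki
    exact ⟨A, hA, by rw [hc]; exact hmaxi.symm⟩
  · rintro c ⟨A, hA, rfl⟩
    exact upper3 hS hMo hF hBl hSm hR hTo hBb hk hkd hdn hm1 hmk hnum A hA

end Pool.Agent.E8helper61.EF
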