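import Mathlib
import Pool.Agent.E8helper61.EF.Asm3

set_option autoImplicit false

open Finset

namespace Pool.Agent.E8helper61.EF

/-- members with `s` far elements, if there is a member with `i ≥ s` of them -/
lemma nf_KU' (hF : FreeStatement) (hMo : MoveStatement) {n k d s m : ℕ}
    {A : Finset (Finset (Fin n))} (hk : 1 ≤ k) (hdn : d ≤ n) (hD : Down A) (hSh : Shifted A)
    (hA : KU k d A) (hm : m < k) {B₀ : Finset (Fin n)} (hB₀ : B₀ ∈ A)
    (hs : s ≤ (far d B₀).card) :
    KU (k - m) (d - k * s - m * ((far d B₀).card - s)) (NF A d s) := by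
  classical
  intro f hf
  choose g hgA hgs hgn using fun j => mem_NF.1 (hf j)
  -- the family of k members
  let F : Fin k → Finset (Fin n) := fun j => if h : j.val < k - m then g ⟨j.val, h⟩ else B₀
  have hFA : ∀ j, F j ∈ A := by
    intro j
    simp only [F]
    split_ifs with h
    · exact hgA _
    · exact hB₀
  have h1 := hF hMo n k d A hk hdn hD hSh hA F hFA
  have h2 : (univ.biUnion f).card ≤ (univ.biUnion (fun j => near d (F j))).card := by
    apply card_le_card
    intro x hx
    obtain ⟨j, _, hj⟩ := mem_biUnion.1 hx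
    refine mem_biUnion.2 ⟨⟨j.val, by omega⟩, mem_univ _, ?_⟩
    have : F ⟨j.val, by omega⟩ = g j := by
      simp only [F]
      rw [dif_pos j.isLt]
    rw [this, hgn j]
    exact hj
  have h3 : (k - m) * s + m * (far d B₀).card ≤ ∑ j, (far d (F j)).card := by
    have hle : ∀ j : Fin k, (if j.val < k - m then s else (far d B₀).card) ≤
        (far d (F j)).card := by
      intro j
      simp only [F]
      split_ifs with h
      · exact (hgs _).ge
      · exact le_rfl
    have hsum : ∑ j : Fin k, (if j.val < k - m then s else (far d B₀).card) =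
        (k - m) * s + m * (far d B₀).card := by
      rw [Finset.sum_ite, sum_const, sum_const, smul_eq_mul, smul_eq_mul]
      have c1 : (univ.filter (fun j : Fin k => j.val < k - m)).card = k - m := by
        rw [Fin.card_filter_val_lt]
        omega
      have c2 : (univ.filter (fun j : Fin k => ¬ j.val < k - m)).card = m := by
        have := Finset.card_filter_add_card_filter_not (s := (univ : Finset (Fin k)))
          (fun j : Fin k => j.val < k - m)
        rw [c1, card_univ, Fintype.card_fin] at this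
        omega
      rw [c1, c2]
    rw [← hsum]
    exact sum_le_sum (fun j _ => hle j)
  have h4 : (k - m) * s + m * (far d B₀).card = k * s + m * ((far d B₀).card - s) := by
    obtain ⟨c, rfl⟩ : ∃ c, k = c + m := ⟨k - m, by omega⟩
    obtain ⟨e, he⟩ : ∃ e, (far d B₀).card = s + e := ⟨(far d B₀).card - s, by omega⟩
    rw [Nat.add_sub_cancel, he, Nat.add_sub_cancel_left]
    ring
  omega

lemma geo {q : ℝ} (hq0 : 0 < q) (hq1 : q < 1) (i : ℕ) :
    ∑ s ∈ range i, q ^ (i - s) ≤ q / (1 - q) := by
  induction i with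
  | zero => simp; apply div_nonneg hq0.le; linarith
  | succ i ih =>
    have h1 : ∑ s ∈ range (i + 1), q ^ (i + 1 - s) = q * ∑ s ∈ range i, q ^ (i - s) + q := by
      rw [sum_range_succ, mul_sum]
      congr 1
      · apply sum_congr rfl
        intro s hs
        have := mem_range.1 hs
        rw [← pow_succ']
        congr 1
        omega
      · simp
    rw [h1]
    have h2 : 0 < 1 - q := by linarith
    calc q * ∑ s ∈ range i, q ^ (i - s) + q ≤ q * (q / (1 - q)) + q := by
          have := mul_le_mul_of_nonneg_left ih hq0.le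
          linarith
      _ = q / (1 - q) := by field_simp; ring

theorem upper4 (hS : ShiftStatement) (hMo : MoveStatement) (hF : FreeStatement)
    (hBl : BlkStatement) (hSm : SmallIStatement) (hR : RecStatement) (hTo : TotalStatement)
    (hBb : BbStatement) {n k d m : ℕ} (hk : 2 ≤ k) (hkd : k ≤ d) (hdn : d ≤ n) (hm1 : 1 ≤ m)
    (hmk : m < k)
    (hnum : (1 / 2 : ℝ) * (1 + 1 / 2 ^ (k - 1)) ^ d +
      1 / (2 ^ m - 1) * (1 + 1 / 2 ^ (k - m)) ^ d ≤ 1)
    (A : Finset (Finset (Fin n))) (hA : KU k d A) : A.card ≤ ff n k d := by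
  classical
  obtain ⟨B, hAB, hB, hD, hSh, -⟩ := hS n k d A (by omega) hA
  refine hAB.trans ?_
  rcases B.eq_empty_or_nonempty with rfl | hne
  · simp
  obtain ⟨B₀, hB₀, hmax⟩ := exists_max_image B (fun C => (far d C).card) hne
  obtain ⟨i, hi⟩ : ∃ i, (far d B₀).card = i := ⟨_, rfl⟩
  have hfar : ∀ C ∈ B, (far d C).card ≤ i := fun C hC => hi ▸ hmax C hC
  have hki : k * i ≤ d := by
    have h1 := hF hMo n k d B (by omega) hdn hD hSh hB (fun _ => B₀) (fun _ => hB₀)
    rw [sum_const, card_univ, Fintype.card_fin, smul_eq_mul, hi] at h1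
    omega
  have hidk : i ≤ d / k := (Nat.le_div_iff_mul_le (by omega)).2 (by rw [mul_comm]; exact hki)
  have htot := hTo n d i B hdn hfar
  rcases Nat.eq_zero_or_pos i with hi0 | hi1
  · -- all members are inside `[0,d)`
    subst hi0
    have hN0 : (NF B d 0).card ≤ 2 ^ d := by
      have hsub : NF B d 0 ⊆ (univ.filter (fun x : Fin n => x.val < d)).powerset := by
        intro C hC
        rw [mem_powerset]
        intro x hx
        exact mem_filter.2 ⟨mem_univ _, supp_NF B C hC x hx⟩
      have h2 := card_le_card hsub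
      rw [card_powerset, Fin.card_filter_val_lt] at h2
      exact h2.trans (Nat.pow_le_pow_right (by norm_num) (min_le_right _ _))
    have h3 : gi n k d 0 = 2 ^ d := by
      unfold gi; simp
    have h4 : B.card ≤ (NF B d 0).card := by simpa using htot
    calc B.card ≤ _ := h4
      _ ≤ 2 ^ d := hN0
      _ = gi n k d 0 := h3.symm
      _ ≤ _ := gi_le_ff (Nat.zero_le _)
  · by_cases hblk : blk n (d - k * i) i ∈ B
    · obtain ⟨hb1, hb2⟩ := hBl hF hMo n k d i B hk hdn hi1 hki hD hSh hB hblk
      have hmem : near d B₀ ∈ NF B d i := mem_NF.2 ⟨B₀, hB₀, hi, rfl⟩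
      have hr1 : 1 ≤ d - k * i := by
        by_contra hcon
        have h5 := hb2 (by omega)
        rw [h5] at hmem
        exact notMem_empty _ hmem
      have hKU1 := hb1 hr1
      have hc1 := hR hS hMo n (k - 1) d (d - k * i - 1) (NF B d i) (by omega) hdn hKU1
        (supp_NF B)
      have hc1' : ((NF B d i).card : ℝ) ≤ 2 ^ (d - k * i - 1) * (1 + 1 / 2 ^ (k - 1)) ^ d :=
        (Nat.cast_le.2 hc1).trans (hBb (k - 1) d (d - k * i - 1) (by omega))
      have hcs : ∀ s ∈ range i, ((NF B d s).card : ℝ) ≤
          2 ^ (d - k * s - m * (i - s)) * (1 + 1 / 2 ^ (k - m)) ^ d := by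
        intro s hs
        have hs' := mem_range.1 hs
        have hKU := nf_KU' (s := s) hF hMo (by omega) hdn hD hSh hB hmk hB₀ (by omega)
        rw [hi] at hKU
        have h6 := hR hS hMo n (k - m) d (d - k * s - m * (i - s)) (NF B d s) (by omega) hdn hKU
          (supp_NF B)
        exact (Nat.cast_le.2 h6).trans (hBb (k - m) d (d - k * s - m * (i - s)) (by omega))
      have hff : ∀ s, s ≤ i → ((n - d).choose s : ℝ) * 2 ^ (d - k * s) ≤ ff n k d := by
        intro s hs
        have h7 : (n - d).choose s * 2 ^ (d - k * s) ≤ ff n k d :=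
          wt_le_gi.trans (gi_le_ff (hs.trans hidk))
        exact_mod_cast h7
      have hff0 : (0 : ℝ) ≤ ff n k d := Nat.cast_nonneg _
      have htotR : (B.card : ℝ) ≤ ∑ s ∈ range i, ((n - d).choose s : ℝ) * (NF B d s).card +
          ((n - d).choose i : ℝ) * (NF B d i).card := by
        rw [sum_range_succ] at htot
        exact_mod_cast htot
      set X : ℝ := (1 + 1 / 2 ^ (k - 1)) ^ d with hX
      set Y : ℝ := (1 + 1 / 2 ^ (k - m)) ^ d with hY
      have hX0 : 0 ≤ X := by rw [hX]; positivity
      have hY0 : 0 ≤ Y := by rw [hY]; positivity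
      have hq0 : (0 : ℝ) < (1 / 2) ^ m := by positivity
      have hq1 : ((1 / 2 : ℝ)) ^ m < 1 := pow_lt_one₀ (by norm_num) (by norm_num) (by omega)
      have hqq : (1 / 2 : ℝ) ^ m / (1 - (1 / 2) ^ m) = 1 / (2 ^ m - 1) := by
        have h11 : (1 / 2 : ℝ) ^ m = 1 / 2 ^ m := by rw [div_pow, one_pow]
        have h12 : (0 : ℝ) < 2 ^ m := by positivity
        have h13 : (1 : ℝ) < 2 ^ m := one_lt_pow₀ (by norm_num) (by omega)
        rw [h11]
        have h14 : (2 : ℝ) ^ m - 1 ≠ 0 := by linarith
        have h15 : (1 : ℝ) - 1 / 2 ^ m ≠ 0 := by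
          rw [h11] at hq1; linarith
        field_simp
      have hsum1 : ∑ s ∈ range i, ((n - d).choose s : ℝ) * (NF B d s).card ≤
          ff n k d * Y * (1 / (2 ^ m - 1)) := by
        calc ∑ s ∈ range i, ((n - d).choose s : ℝ) * (NF B d s).card
            ≤ ∑ s ∈ range i, (ff n k d * Y * ((1 / 2) ^ m) ^ (i - s) : ℝ) := by
              apply sum_le_sum
              intro s hs
              have hs' := mem_range.1 hs
              have hge : m * (i - s) ≤ d - k * s := by
                have h16 : k * s + k * (i - s) = k * i := by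
                  rw [← Nat.mul_add]; congr 1; omega
                have h17 : m * (i - s) ≤ k * (i - s) := Nat.mul_le_mul_right _ hmk.le
                omega
              have h8 : (2 : ℝ) ^ (d - k * s) = 2 ^ (d - k * s - m * (i - s)) *
                  2 ^ (m * (i - s)) := by
                rw [← pow_add, Nat.sub_add_cancel hge]
              have h9 : (2 : ℝ) ^ (d - k * s - m * (i - s)) = 2 ^ (d - k * s) *
                  ((1 / 2) ^ m) ^ (i - s) := by
                rw [h8, ← pow_mul, one_div, inv_pow]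
                field_simp
              calc ((n - d).choose s : ℝ) * (NF B d s).card
                  ≤ ((n - d).choose s : ℝ) * (2 ^ (d - k * s - m * (i - s)) * Y) :=
                    mul_le_mul_of_nonneg_left (hcs s hs) (Nat.cast_nonneg _)
                _ = (((n - d).choose s : ℝ) * 2 ^ (d - k * s)) *
                    (Y * ((1 / 2) ^ m) ^ (i - s)) := by
                    rw [h9]; ring
                _ ≤ ff n k d * (Y * ((1 / 2) ^ m) ^ (i - s)) :=
                    mul_le_mul_of_nonneg_right (hff s hs'.le) (by positivity)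
                _ = _ := by ring
          _ = ff n k d * Y * ∑ s ∈ range i, ((1 / 2 : ℝ) ^ m) ^ (i - s) := by rw [mul_sum]
          _ ≤ ff n k d * Y * ((1 / 2) ^ m / (1 - (1 / 2) ^ m)) :=
              mul_le_mul_of_nonneg_left (geo hq0 hq1 i) (by positivity)
          _ = _ := by rw [hqq]
      have hsum2 : ((n - d).choose i : ℝ) * (NF B d i).card ≤ ff n k d * (1 / 2 * X) := by
        have h10 : (2 : ℝ) ^ (d - k * i - 1) = 2 ^ (d - k * i) * (1 / 2) := by
          have : (2 : ℝ) ^ (d - k * i) = 2 ^ (d - k * i - 1) * 2 := by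
            rw [← pow_succ, Nat.sub_add_cancel hr1]
          rw [this]; ring
        calc ((n - d).choose i : ℝ) * (NF B d i).card
            ≤ ((n - d).choose i : ℝ) * (2 ^ (d - k * i - 1) * X) :=
              mul_le_mul_of_nonneg_left hc1' (Nat.cast_nonneg _)
          _ = (((n - d).choose i : ℝ) * 2 ^ (d - k * i)) * (1 / 2 * X) := by rw [h10]; ring
          _ ≤ _ := mul_le_mul_of_nonneg_right (hff i le_rfl) (by positivity)
      have hfinal : (B.card : ℝ) ≤ ff n k d := by
        calc (B.card : ℝ) ≤ _ := htotR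
          _ ≤ ff n k d * Y * (1 / (2 ^ m - 1)) + ff n k d * (1 / 2 * X) :=
              add_le_add hsum1 hsum2
          _ = ff n k d * (1 / 2 * X + 1 / (2 ^ m - 1) * Y) := by ring
          _ ≤ ff n k d * 1 := mul_le_mul_of_nonneg_left hnum hff0
          _ = _ := mul_one _
      exact_mod_cast hfinal
    · exact (hSm n k d i B hk hdn hi1 hki hD hSh hblk).trans (gi_le_ff hidk)

theorem exact4 (hS : ShiftStatement) (hMo : MoveStatement) (hF : FreeStatement)
    (hBl : BlkStatement) (hSm : SmallIStatement) (hR : RecStatement) (hTo : TotalStatement)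
    (hBb : BbStatement) (hL : LowerStatement) {n k d m : ℕ} (hk : 2 ≤ k) (hkd : k ≤ d)
    (hdn : d ≤ n) (hm1 : 1 ≤ m) (hmk : m < k)
    (hnum : (1 / 2 : ℝ) * (1 + 1 / 2 ^ (k - 1)) ^ d +
      1 / (2 ^ m - 1) * (1 + 1 / 2 ^ (k - m)) ^ d ≤ 1) :
    IsGreatest {c : ℕ | ∃ A : Finset (Finset (Fin n)), KU k d A ∧ A.card = c} (ff n k d) := by
  refine ⟨?_, ?_⟩
  · obtain ⟨i, hi, hmaxi⟩ := Finset.exists_mem_eq_sup (range (d / k + 1))
      ⟨0, mem_range.2 (Nat.succ_pos _)⟩ (gi n k d)
    have hki : k * i ≤ d :=
      (Nat.mul_le_mul_left k (Nat.lt_succ_iff.1 (mem_range.1 hi))).trans (Nat.mul_div_le d k)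
    obtain ⟨A, hA, hc⟩ := hL n k d i (by omega) hdn hki
    exact ⟨A, hA, by rw [hc]; exact hmaxi.symm⟩
  · rintro c ⟨A, hA, rfl⟩
    exact upper4 hS hMo hF hBl hSm hR hTo hBb hk hkd hdn hm1 hmk hnum A hA

end Pool.Agent.E8helper61.EF
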