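import Mathlib

set_option autoImplicit false

namespace Pool.Agent.E8helper61.EF

lemma one_add_pow_le_exp {y : ℝ} (hy : 0 ≤ y) (d : ℕ) {c : ℝ} (h : d * y ≤ c) :
    (1 + y) ^ d ≤ Real.exp c := by
  calc (1 + y) ^ d ≤ (Real.exp y) ^ d := by
        apply pow_le_pow_left₀ (by linarith)
        have := Real.add_one_le_exp y
        linarith
    _ = Real.exp (d * y) := by rw [← Real.exp_nat_mul]
    _ ≤ Real.exp c := Real.exp_le_exp.2 h

theorem num4 {k d : ℕ} (hk : 4 ≤ k) (hd : 9 * d ≤ 2 ^ k) :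
    (1 / 2 : ℝ) * (1 + 1 / 2 ^ (k - 1)) ^ d +
      1 / (2 ^ 3 - 1) * (1 + 1 / 2 ^ (k - 3)) ^ d ≤ 1 := by
  have hdR : 9 * (d : ℝ) ≤ 2 ^ k := by exact_mod_cast hd
  have hP : (0 : ℝ) < 2 ^ k := by positivity
  have e1 : (2 : ℝ) ^ k = 2 ^ (k - 1) * 2 := by
    rw [← pow_succ]; congr 1; omega
  have e3 : (2 : ℝ) ^ k = 2 ^ (k - 3) * 8 := by
    have : (8 : ℝ) = 2 ^ 3 := by norm_num
    rw [this, ← pow_add]; congr 1; omega
  have p1 : (0 : ℝ) < 2 ^ (k - 1) := by positivity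
  have p3 : (0 : ℝ) < 2 ^ (k - 3) := by positivity
  have h1 : (1 + 1 / 2 ^ (k - 1) : ℝ) ^ d ≤ Real.exp (2 * (1 / 9)) := by
    apply one_add_pow_le_exp (by positivity)
    rw [mul_one_div, div_le_iff₀ p1]
    nlinarith
  have h3 : (1 + 1 / 2 ^ (k - 3) : ℝ) ^ d ≤ Real.exp (8 * (1 / 9)) := by
    apply one_add_pow_le_exp (by positivity)
    rw [mul_one_div, div_le_iff₀ p3]
    nlinarith
  have hx9 : (Real.exp (1 / 9)) ^ 9 = Real.exp 1 := by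
    rw [← Real.exp_nat_mul]; norm_num
  have hx : Real.exp (1 / 9) < 1.1176 := by
    apply lt_of_pow_lt_pow_left₀ 9 (by norm_num)
    rw [hx9]
    have := Real.exp_one_lt_d9
    refine this.trans ?_
    norm_num
  have hx0 : 0 < Real.exp (1 / 9) := Real.exp_pos _
  have h1' : Real.exp (2 * (1 / 9)) ≤ 1.2491 := by
    have : Real.exp (2 * (1 / 9)) = Real.exp (1 / 9) ^ 2 := by
      rw [← Real.exp_nat_mul]; norm_num
    rw [this]
    calc Real.exp (1 / 9) ^ 2 ≤ (1.1176 : ℝ) ^ 2 := pow_le_pow_left₀ hx0.le hx.le 2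
      _ ≤ _ := by norm_num
  have h3' : Real.exp (8 * (1 / 9)) ≤ 2.44 := by
    have : Real.exp (8 * (1 / 9)) = Real.exp (1 / 9) ^ 8 := by
      rw [← Real.exp_nat_mul]; norm_num
    rw [this]
    calc Real.exp (1 / 9) ^ 8 ≤ (1.1176 : ℝ) ^ 8 := pow_le_pow_left₀ hx0.le hx.le 8
      _ ≤ _ := by norm_num
  have h4 : (1 + 1 / 2 ^ (k - 1) : ℝ) ^ d ≤ 1.2491 := h1.trans h1'
  have h5 : (1 + 1 / 2 ^ (k - 3) : ℝ) ^ d ≤ 2.44 := h3.trans h3'
  have h6 : (1 : ℝ) / (2 ^ 3 - 1) = 1 / 7 := by norm_num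
  rw [h6]
  linarith

end Pool.Agent.E8helper61.EF
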