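import Mathlib
import Pool.Agent.E8helper99.EF.Rec

set_option autoImplicit false

open Finset

namespace Pool.Agent.E8helper61.EF

open Pool.Agent.E8helper99.EF (ini card_ini)

lemma direct2 {n M : ℕ} (A : Finset (Finset (Fin n))) (hM : M ≤ n) (hA : Supp M A) :
    A.card ≤ 2 ^ M := by
  have h1 : A ⊆ (ini n M).powerset := by
    intro B hB
    rw [mem_powerset]
    intro x hx
    exact mem_filter.2 ⟨mem_univ _, hA B hB x hx⟩
  have h2 := card_le_card h1
  rwa [card_powerset, card_ini hM] at h2

theorem recG (hS : ShiftStatement) {k : ℕ} (g₀ : ℕ → ℕ → ℝ)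
    (g0 : ∀ M d, M ≤ d → (2 : ℝ) ^ M ≤ g₀ M d)
    (g1 : ∀ M d, d ≤ M → d < k → g₀ M d ≤ g₀ (M + 1) d)
    (g2 : ∀ M d, k ≤ d → d ≤ M → g₀ M d + g₀ M (d - k) ≤ g₀ (M + 1) d) :
    ∀ (n M d : ℕ) (A : Finset (Finset (Fin n))), 1 ≤ k → M ≤ n → KU k d A → Supp M A →
      (A.card : ℝ) ≤ g₀ M d := by
  intro n M d A hk hM hKU hSupp
  induction M generalizing d A with
  | zero => exact le_trans (by exact_mod_cast direct2 A hM hSupp) (g0 0 d (Nat.zero_le _))
  | succ M ih =>
    by_cases hMd : M + 1 ≤ d
    · exact le_trans (by exact_mod_cast direct2 A hM hSupp) (g0 _ _ hMd)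
    push Not at hMd
    obtain ⟨B, hAB, hKB, hDown, hSh, hSuppB⟩ := hS n k d A hk hKU
    have hSB := hSuppB (M + 1) hSupp
    refine le_trans (Nat.cast_le.2 hAB) ?_
    set m : Fin n := ⟨M, hM⟩ with hm
    have hne : ∀ x : Fin n, x.val < M + 1 → x ≠ m → x.val < M := by
      intro x hx hxm
      have : x.val ≠ M := fun h => hxm (Fin.ext h)
      omega
    set A0 := B.filter (fun C => m ∉ C) with hA0
    set A1 := (B.filter (fun C => m ∈ C)).image (fun C => C.erase m) with hA1
    have hcard : B.card = A0.card + A1.card := by
      have h1 : A1.card = (B.filter (fun C => m ∈ C)).card := by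
        apply card_image_of_injOn
        intro C hC C' hC' h
        have h1 := (mem_filter.1 hC).2
        have h2 := (mem_filter.1 hC').2
        have h' : C.erase m = C'.erase m := h
        rw [← insert_erase h1, h', insert_erase h2]
      have h2 := Finset.card_filter_add_card_filter_not (s := B) (fun C => m ∈ C)
      rw [h1, hA0]
      omega
    have h0 : (A0.card : ℝ) ≤ g₀ M d := by
      refine ih d A0 (by omega) (fun f hf => hKB f fun j => (mem_filter.1 (hf j)).1) ?_
      intro C hC x hx
      have hC' := mem_filter.1 hC
      exact hne x (hSB C hC'.1 x hx) (fun h => hC'.2 (h ▸ hx))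
    by_cases hdk : d < k
    · -- no member contains `m`
      have hempty : A1.card = 0 := by
        rw [card_eq_zero, hA1, image_eq_empty, filter_eq_empty_iff]
        intro C hC hmC
        have hsm : ({m} : Finset (Fin n)) ∈ B := hDown C hC _ (singleton_subset_iff.2 hmC)
        have hsx : ∀ x : Fin n, x.val ≤ M → ({x} : Finset (Fin n)) ∈ B := by
          intro x hx
          by_cases hxm : x = m
          · rw [hxm]; exact hsm
          · have hlt : x < m := by
              have := hne x (by omega) hxm
              exact this
            have := hSh {m} hsm x m hlt (mem_singleton_self m) (by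
              rw [mem_singleton]; exact hxm)
            simpa using this
        have hf := hKB (fun j : Fin k => ({⟨min j.val d, by omega⟩} : Finset (Fin n)))
          (fun j => hsx ⟨min j.val d, by omega⟩ (by show min j.val d ≤ M; omega))
        have hge : (univ : Finset (Fin (d + 1))).card ≤
            (univ.biUnion (fun j : Fin k => ({⟨min j.val d, by omega⟩} : Finset (Fin n)))).card := by
          refine card_le_card_of_injOn (fun i : Fin (d + 1) => (⟨i.val, by omega⟩ : Fin n)) ?_ ?_
          · intro i _
            rw [mem_coe, mem_biUnion]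
            refine ⟨⟨i.val, by omega⟩, mem_univ _, ?_⟩
            rw [mem_singleton, Fin.mk.injEq]
            simp only
            omega
          · intro i _ i' _ h
            simp only [Fin.mk.injEq] at h
            exact Fin.ext h
        rw [card_univ, Fintype.card_fin] at hge
        omega
      rw [hcard, hempty, Nat.add_zero]
      exact h0.trans (g1 M d (by omega) hdk)
    · push Not at hdk
      have h1 : (A1.card : ℝ) ≤ g₀ M (d - k) := by
        refine ih (d - k) A1 (by omega) ?_ ?_
        · intro g hg
          have hg' : ∀ j, ∃ C ∈ B, m ∈ C ∧ C.erase m = g j := by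
            intro j
            obtain ⟨C, hC, hCg⟩ := mem_image.1 (hg j)
            exact ⟨C, (mem_filter.1 hC).1, (mem_filter.1 hC).2, hCg⟩
          choose C hCB hmC hCg using hg'
          set U := univ.biUnion g with hU
          have hmU : m ∉ U := by
            rw [hU, mem_biUnion]
            rintro ⟨j, _, hj⟩
            rw [← hCg j] at hj
            exact (mem_erase.1 hj).1 rfl
          have hUI : U ⊆ ini n (M + 1) := by
            intro x hx
            rw [hU, mem_biUnion] at hx
            obtain ⟨j, _, hj⟩ := hx
            rw [← hCg j] at hj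
            exact mem_filter.2 ⟨mem_univ _, hSB (C j) (hCB j) x (mem_erase.1 hj).2⟩
          set F := ini n (M + 1) \ U with hF
          have hmF : m ∈ F := mem_sdiff.2 ⟨mem_filter.2 ⟨mem_univ _, Nat.lt_succ_self M⟩, hmU⟩
          have hUF : U.card + F.card = M + 1 := by
            rw [hF, card_sdiff_of_subset hUI, card_ini hM]
            have := card_le_card hUI
            rw [card_ini hM] at this
            omega
          have star : ∀ T ⊆ F, T.card ≤ k → U.card + T.card ≤ d := by
            intro T hT hTk
            set φ : Fin k → Fin n := fun j =>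
              if h : j.val < T.card then T.orderEmbOfFin rfl ⟨j.val, h⟩ else m with hφ
            have hφF : ∀ j, φ j ∈ F := by
              intro j
              simp only [hφ]
              split_ifs with h
              · exact hT (orderEmbOfFin_mem T rfl _)
              · exact hmF
            have hB' : ∀ j, insert (φ j) (g j) ∈ B := by
              intro j
              rw [← hCg j]
              have hj := mem_sdiff.1 (hφF j)
              by_cases hjm : φ j = m
              · rw [hjm, insert_erase (hmC j)]
                exact hCB j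
              · have hlt : φ j < m := hne _ (mem_filter.1 hj.1).2 hjm
                refine hSh (C j) (hCB j) (φ j) m hlt (hmC j) ?_
                intro hin
                apply hj.2
                rw [hU, mem_biUnion]
                exact ⟨j, mem_univ _, by rw [← hCg j]; exact mem_erase.2 ⟨hjm, hin⟩⟩
            have hle := hKB (fun j => insert (φ j) (g j)) hB'
            have hsub : U ∪ T ⊆ univ.biUnion (fun j => insert (φ j) (g j)) := by
              intro x hx
              rw [mem_biUnion]
              rcases mem_union.1 hx with h | h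
              · rw [hU, mem_biUnion] at h
                obtain ⟨j, _, hj⟩ := h
                exact ⟨j, mem_univ _, mem_insert_of_mem hj⟩
              · have hx' : x ∈ Set.range (T.orderEmbOfFin rfl) := by
                  rw [range_orderEmbOfFin]
                  exact h
                obtain ⟨i, hi⟩ := hx'
                refine ⟨⟨i.val, lt_of_lt_of_le i.2 hTk⟩, mem_univ _, ?_⟩
                apply mem_insert.2
                left
                simp only [hφ]
                rw [dif_pos i.2]
                exact hi.symm
            have hdis : Disjoint U T := by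
              rw [disjoint_left]
              intro x hxU hxT
              exact (mem_sdiff.1 (hT hxT)).2 hxU
            have := card_le_card hsub
            rw [card_union_of_disjoint hdis] at this
            omega
          by_cases hkF : k ≤ F.card
          · obtain ⟨T, hT, hTc⟩ := exists_subset_card_eq hkF
            have := star T hT hTc.le
            omega
          · have := star F (Subset.refl _) (by omega)
            omega
        · intro C hC x hx
          obtain ⟨C', hC', rfl⟩ := mem_image.1 hC
          have h2 := mem_erase.1 hx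
          exact hne x (hSB C' (mem_filter.1 hC').1 x h2.2) h2.1
      have h2 := g2 M d hdk (by omega)
      rw [hcard]
      push_cast
      linarith


/-- the bound for `k ≥ 3` -/
theorem rec2 (hS : ShiftStatement) {k : ℕ} (hk : 3 ≤ k) (n M d : ℕ)
    (A : Finset (Finset (Fin n))) (hM : M ≤ n) (hKU : KU k d A) (hSupp : Supp M A) :
    (A.card : ℝ) ≤ 2 ^ M * ((1 + 2 / 2 ^ k) / 2) ^ (M - d) := by
  have hP : (0 : ℝ) < 2 ^ k := by positivity
  set β : ℝ := (1 + 2 / 2 ^ k) / 2 with hβ
  have hβ0 : 0 < β := by positivity
  have h2β : 2 * β = 1 + 2 / 2 ^ k := by rw [hβ]; ring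
  have h2β1 : 1 ≤ 2 * β := by
    rw [h2β]
    have : (0 : ℝ) < 2 / 2 ^ k := by positivity
    linarith
  have hpow : (1 + 2 / 2 ^ k : ℝ) ^ k ≤ 2 := by
    rcases Nat.eq_or_lt_of_le hk with h3 | h4
    · rw [← h3]; norm_num
    · have h4' : 4 ≤ k := h4
      have hk2 : ∀ j : ℕ, 4 * (j + 4) ≤ 2 ^ (j + 4) := by
        intro j
        induction j with
        | zero => norm_num
        | succ j ih => rw [show j + 1 + 4 = (j + 4) + 1 by ring, pow_succ]; omega
      have hkk : 4 * k ≤ 2 ^ k := by
        have := hk2 (k - 4)
        rwa [Nat.sub_add_cancel h4'] at this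
      have hkR : 4 * (k : ℝ) ≤ 2 ^ k := by exact_mod_cast hkk
      have h5 : (1 + 2 / 2 ^ k : ℝ) ≤ Real.exp (2 / 2 ^ k) := by
        have := Real.add_one_le_exp ((2 : ℝ) / 2 ^ k)
        linarith
      calc (1 + 2 / 2 ^ k : ℝ) ^ k ≤ Real.exp (2 / 2 ^ k) ^ k :=
            pow_le_pow_left₀ (by positivity) h5 k
        _ = Real.exp (k * (2 / 2 ^ k)) := by rw [← Real.exp_nat_mul]
        _ ≤ Real.exp (1 / 2) := by
            apply Real.exp_le_exp.2
            rw [mul_div_assoc', div_le_iff₀ hP]
            linarith
        _ ≤ 2 := by
            have h6 : Real.exp (1 / 2) ^ 2 = Real.exp 1 := by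
              rw [← Real.exp_nat_mul]; norm_num
            have h7 := Real.exp_one_lt_d9
            have h8 : Real.exp (1 / 2) < 2 := by
              apply lt_of_pow_lt_pow_left₀ 2 (by norm_num)
              rw [h6]
              linarith
            exact h8.le
  have hβk : β ^ k ≤ 2 / 2 ^ k := by
    rw [hβ, div_pow]
    exact div_le_div_of_nonneg_right hpow hP.le
  refine recG hS (fun M d => (2 : ℝ) ^ M * β ^ (M - d)) ?_ ?_ ?_ n M d A (by omega) hM hKU hSupp
  · intro M d h
    simp [Nat.sub_eq_zero_of_le h]
  · intro M d h _
    have h1 : M + 1 - d = (M - d) + 1 := by omega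
    rw [h1, pow_succ, pow_succ]
    have h2 : (0 : ℝ) ≤ 2 ^ M * β ^ (M - d) := by positivity
    calc (2 : ℝ) ^ M * β ^ (M - d) = 2 ^ M * β ^ (M - d) * 1 := by ring
      _ ≤ 2 ^ M * β ^ (M - d) * (2 * β) := mul_le_mul_of_nonneg_left h2β1 h2
      _ = _ := by ring
  · intro M d hkd h
    have h1 : M + 1 - d = (M - d) + 1 := by omega
    have h3 : M - (d - k) = (M - d) + k := by omega
    rw [h1, h3, pow_succ, pow_succ, pow_add]
    have h2 : (0 : ℝ) ≤ 2 ^ M * β ^ (M - d) := by positivity
    have h4 : 1 + β ^ k ≤ 2 * β := by rw [h2β]; linarith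
    calc (2 : ℝ) ^ M * β ^ (M - d) + 2 ^ M * (β ^ (M - d) * β ^ k)
        = 2 ^ M * β ^ (M - d) * (1 + β ^ k) := by ring
      _ ≤ 2 ^ M * β ^ (M - d) * (2 * β) := mul_le_mul_of_nonneg_left h4 h2
      _ = _ := by ring

end Pool.Agent.E8helper61.EF
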