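import Mathlib
import Pool.Agent.E8helper61.EF.Asm4
import Pool.Agent.E8helper61.EF.Num4
import Pool.Agent.E8helper61.EF.RecG

set_option autoImplicit false

open Finset

namespace Pool.Agent.E8helper61.EF

lemma exp_quarter : Real.exp (1 / 4) ≤ 1.29 := by
  have h6 : Real.exp (1 / 4) ^ 4 = Real.exp 1 := by rw [← Real.exp_nat_mul]; norm_num
  have h7 := Real.exp_one_lt_d9
  have h8 : Real.exp (1 / 4) < 1.29 := by
    apply lt_of_pow_lt_pow_left₀ 4 (by norm_num)
    rw [h6]
    refine h7.trans ?_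
    norm_num
  exact h8.le

lemma exp_sixteenth : Real.exp (1 / 16) ≤ 1.065 := by
  have h6 : Real.exp (1 / 16) ^ 16 = Real.exp 1 := by rw [← Real.exp_nat_mul]; norm_num
  have h7 := Real.exp_one_lt_d9
  have h8 : Real.exp (1 / 16) < 1.065 := by
    apply lt_of_pow_lt_pow_left₀ 16 (by norm_num)
    rw [h6]
    refine h7.trans ?_
    norm_num
  exact h8.le

lemma geo2 {q : ℝ} (hq0 : 0 < q) (hq1 : q < 1) (L : ℕ) :
    ∑ j ∈ range L, q ^ (j + 1) ≤ q / (1 - q) := by
  induction L with
  | zero => simp; apply div_nonneg hq0.le; linarith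
  | succ L ih =>
    have h1 : ∑ j ∈ range (L + 1), q ^ (j + 1) = q * ∑ j ∈ range L, q ^ (j + 1) + q := by
      rw [sum_range_succ', mul_sum]
      congr 1
      · apply sum_congr rfl
        intro j _
        ring
      · simp
    rw [h1]
    have h2 : 0 < 1 - q := by linarith
    calc q * ∑ j ∈ range L, q ^ (j + 1) + q ≤ q * (q / (1 - q)) + q := by
          have := mul_le_mul_of_nonneg_left ih hq0.le
          linarith
      _ = q / (1 - q) := by field_simp; ring

lemma conv2 (x : ℝ) {a d : ℕ} (h : a ≤ d) : (2 : ℝ) ^ d * (x / 2) ^ a = 2 ^ (d - a) * x ^ a := by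
  have : (2 : ℝ) ^ d = 2 ^ (d - a) * 2 ^ a := by rw [← pow_add, Nat.sub_add_cancel h]
  rw [this, div_pow]
  field_simp

lemma pow_k {k : ℕ} (hk : 6 ≤ k) : 8 * k ≤ 2 ^ k := by
  obtain ⟨j, rfl⟩ : ∃ j, k = j + 6 := ⟨k - 6, by omega⟩
  clear hk
  induction j with
  | zero => norm_num
  | succ j ih => rw [show j + 1 + 6 = (j + 6) + 1 by ring, pow_succ]; omega

/-- numerical facts -/
lemma nums {k S : ℕ} (hk : 6 ≤ k) (hS1 : 64 * (k * S) ≤ 2 ^ k) :
    (∀ s, s ≤ S → (1 + 2 / 2 ^ (k - 3) : ℝ) ^ (k * s) ≤ 1.29) ∧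
    (∀ s, s ≤ S → (1 + 2 / 2 ^ (k - 1) : ℝ) ^ (k * s) ≤ 1.065) ∧
    (∀ s, s ≤ S → (1 + 2 / 2 ^ k : ℝ) ^ (k * s) ≤ 1.065) ∧
    (1 + 2 / 2 ^ k : ℝ) ^ k ≤ 1.29 ∧ (1 + 2 / 2 ^ (k - 1) : ℝ) ≤ 1.0625 ∧
    (1 + 2 / 2 ^ (k - 3) : ℝ) ≤ 1.25 := by
  have e1 : (2 : ℝ) ^ k = 2 ^ (k - 1) * 2 := by
    rw [← pow_succ]; congr 1; omega
  have e3 : (2 : ℝ) ^ k = 2 ^ (k - 3) * 8 := by
    have : (8 : ℝ) = 2 ^ 3 := by norm_num
    rw [this, ← pow_add]; congr 1; omega
  have p0 : (0 : ℝ) < 2 ^ k := by positivity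
  have p1 : (0 : ℝ) < 2 ^ (k - 1) := by positivity
  have p3 : (0 : ℝ) < 2 ^ (k - 3) := by positivity
  have h64 : (64 : ℝ) ≤ 2 ^ k := by
    calc (64 : ℝ) = 2 ^ 6 := by norm_num
      _ ≤ 2 ^ k := pow_le_pow_right₀ (by norm_num) hk
  have hks : ∀ s, s ≤ S → 64 * ((k * s : ℕ) : ℝ) ≤ 2 ^ k := by
    intro s hs
    have : 64 * (k * s) ≤ 2 ^ k :=
      (Nat.mul_le_mul_left 64 (Nat.mul_le_mul_left k hs)).trans hS1
    exact_mod_cast this
  have h8k : 8 * (k : ℝ) ≤ 2 ^ k := by exact_mod_cast pow_k hk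
  refine ⟨?_, ?_, ?_, ?_, ?_, ?_⟩
  · intro s hs
    refine (one_add_pow_le_exp (by positivity) (k * s) ?_).trans exp_quarter
    rw [mul_div_assoc', div_le_iff₀ p3]
    have := hks s hs
    nlinarith
  · intro s hs
    refine (one_add_pow_le_exp (by positivity) (k * s) ?_).trans exp_sixteenth
    rw [mul_div_assoc', div_le_iff₀ p1]
    have := hks s hs
    nlinarith
  · intro s hs
    refine (one_add_pow_le_exp (by positivity) (k * s) ?_).trans exp_sixteenth
    rw [mul_div_assoc', div_le_iff₀ p0]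
    have := hks s hs
    nlinarith
  · refine (one_add_pow_le_exp (by positivity) k ?_).trans exp_quarter
    rw [mul_div_assoc', div_le_iff₀ p0]
    linarith
  · have : (2 : ℝ) / 2 ^ (k - 1) ≤ 0.0625 := by
      rw [div_le_iff₀ p1]; linarith
    linarith
  · have : (2 : ℝ) / 2 ^ (k - 3) ≤ 0.25 := by
      rw [div_le_iff₀ p3]; linarith
    linarith

theorem upper5 (hS : ShiftStatement) (hMo : MoveStatement) (hF : FreeStatement)
    (hBl : BlkStatement) (hSm : SmallIStatement) (hTo : TotalStatement)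
    {n k d : ℕ} (hk : 6 ≤ k) (hdn : d ≤ n) (hT : 256 * k * (n - d) ≤ 4 ^ k)
    (A : Finset (Finset (Fin n))) (hA : KU k d A) : A.card ≤ ff n k d := by
  classical
  obtain ⟨B, hAB, hB, hD, hSh, -⟩ := hS n k d A (by omega) hA
  refine hAB.trans ?_
  rcases B.eq_empty_or_nonempty with rfl | hne
  · simp
  obtain ⟨B₀, hB₀, hmax⟩ := exists_max_image B (fun C => (far d C).card) hne
  obtain ⟨i, hi⟩ : ∃ i, (far d B₀).card = i := ⟨_, rfl⟩
  have hfar : ∀ C ∈ B, (far d C).card ≤ i := fun C hC => hi ▸ hmax C hC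
  have hki : k * i ≤ d := by
    have h1 := hF hMo n k d B (by omega) hdn hD hSh hB (fun _ => B₀) (fun _ => hB₀)
    rw [sum_const, card_univ, Fintype.card_fin, smul_eq_mul, hi] at h1
    omega
  have hidk : i ≤ d / k := (Nat.le_div_iff_mul_le (by omega)).2 (by rw [mul_comm]; exact hki)
  have htot := hTo n d i B hdn hfar
  rcases Nat.eq_zero_or_pos i with hi0 | hi1
  · -- all members are inside `[0,d)`
    subst hi0
    have hN0 : (NF B d 0).card ≤ 2 ^ d := by
      have hsub : NF B d 0 ⊆ (univ.filter (fun x : Fin n => x.val < d)).powerset := by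
        intro C hC
        rw [mem_powerset]
        intro x hx
        exact mem_filter.2 ⟨mem_univ _, supp_NF B C hC x hx⟩
      have h2 := card_le_card hsub
      rw [card_powerset, Fin.card_filter_val_lt] at h2
      exact h2.trans (Nat.pow_le_pow_right (by norm_num) (min_le_right _ _))
    have h3 : gi n k d 0 = 2 ^ d := by
      unfold gi; simp
    have h4 : B.card ≤ (NF B d 0).card := by simpa using htot
    calc B.card ≤ _ := h4
      _ ≤ 2 ^ d := hN0
      _ = gi n k d 0 := h3.symm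
      _ ≤ _ := gi_le_ff (Nat.zero_le _)
  by_cases hblk : blk n (d - k * i) i ∈ B
  swap
  · exact (hSm n k d i B (by omega) hdn hi1 hki hD hSh hblk).trans (gi_le_ff hidk)
  obtain ⟨S, hSdef⟩ : ∃ S, S = 2 ^ k / (64 * k) := ⟨_, rfl⟩
  have hS1 : 64 * (k * S) ≤ 2 ^ k := by
    have := Nat.div_mul_le_self (2 ^ k) (64 * k)
    rw [← hSdef] at this
    calc 64 * (k * S) = S * (64 * k) := by ring
      _ ≤ _ := this
  have hS2 : 4 * (n - d) ≤ (S + 1) * 2 ^ k := by
    have h1 : 2 ^ k < 64 * k * (2 ^ k / (64 * k) + 1) := Nat.lt_mul_div_succ _ (by omega)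
    rw [← hSdef] at h1
    have h2 : (4 : ℕ) ^ k = 2 ^ k * 2 ^ k := by
      rw [← Nat.mul_pow]
    have h3 : 64 * k * (4 * (n - d)) ≤ 64 * k * ((S + 1) * 2 ^ k) := by
      calc 64 * k * (4 * (n - d)) = 256 * k * (n - d) := by ring
        _ ≤ 2 ^ k * 2 ^ k := h2 ▸ hT
        _ ≤ (64 * k * (S + 1)) * 2 ^ k := Nat.mul_le_mul_right _ h1.le
        _ = _ := by ring
    exact Nat.le_of_mul_le_mul_left h3 (by omega)
  obtain ⟨n1, n2, n3, n4, n5, n6⟩ := nums hk hS1
  obtain ⟨δ, hδ⟩ : ∃ δ : ℝ, δ = 1 + 2 / 2 ^ k := ⟨_, rfl⟩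
  obtain ⟨γ, hγ⟩ : ∃ γ : ℝ, γ = 1 + 2 / 2 ^ (k - 3) := ⟨_, rfl⟩
  obtain ⟨ε, hε⟩ : ∃ ε : ℝ, ε = 1 + 2 / 2 ^ (k - 1) := ⟨_, rfl⟩
  have hδ0 : 0 < δ := by rw [hδ]; positivity
  have hγ0 : 0 < γ := by rw [hγ]; positivity
  have hε0 : 0 < ε := by rw [hε]; positivity
  rw [← hγ] at n1 n6
  rw [← hε] at n2 n5
  rw [← hδ] at n3 n4
  obtain ⟨q, hq⟩ : ∃ q : ℝ, q = (γ / 2) ^ 3 := ⟨_, rfl⟩
  have hq0 : 0 < q := by rw [hq]; positivity
  have hq2 : q ≤ 0.24415 := by
    rw [hq]
    calc (γ / 2) ^ 3 ≤ (0.625 : ℝ) ^ 3 := pow_le_pow_left₀ (by positivity) (by linarith) 3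
      _ ≤ _ := by norm_num
  have hq1 : q < 1 := by linarith
  have hqq : q / (1 - q) ≤ 0.324 := by
    rw [div_le_iff₀ (by linarith)]; linarith
  have hff0 : (0 : ℝ) ≤ ff n k d := Nat.cast_nonneg _
  have hff : ∀ s, s ≤ i → ((n - d).choose s : ℝ) * 2 ^ (d - k * s) ≤ ff n k d := by
    intro s hs
    have h7 : (n - d).choose s * 2 ^ (d - k * s) ≤ ff n k d :=
      wt_le_gi.trans (gi_le_ff (hs.trans hidk))
    exact_mod_cast h7
  have hksd : ∀ s, s ≤ i → k * s ≤ d := fun s hs => (Nat.mul_le_mul_left k hs).trans hki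
  -- layers, plain bound
  have hcs0 : ∀ s, s ≤ i → ((NF B d s).card : ℝ) ≤ 2 ^ (d - k * s) * δ ^ (k * s) := by
    intro s hs
    have hKU := nf_KU' (s := s) (m := 0) hF hMo (by omega) hdn hD hSh hB (by omega) hB₀ (by omega)
    simp only [Nat.sub_zero, Nat.zero_mul] at hKU
    have h6 := rec2 hS (by omega) n d (d - k * s) (NF B d s) hdn hKU (supp_NF B)
    have hks := hksd s hs
    have e1 : d - (d - k * s) = k * s := by omega
    rw [e1, conv2 _ hks, ← hδ] at h6
    exact h6
  -- layers, bound from `B₀`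
  have hcs3 : ∀ s, s ≤ i → ((NF B d s).card : ℝ) ≤ 2 ^ (d - k * s) * (γ ^ (k * s) * q ^ (i - s)) := by
    intro s hs
    have hKU := nf_KU' (s := s) (m := 3) hF hMo (by omega) hdn hD hSh hB (by omega) hB₀ (by omega)
    rw [hi] at hKU
    have h6 := rec2 hS (by omega) n d (d - k * s - 3 * (i - s)) (NF B d s) hdn hKU (supp_NF B)
    have hks := hksd s hs
    have h3k : k * s + 3 * (i - s) ≤ d := by
      have h16 : k * s + k * (i - s) = k * i := by
        rw [← Nat.mul_add]; congr 1; omega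
      have h17 : 3 * (i - s) ≤ k * (i - s) := Nat.mul_le_mul_right _ (by omega)
      omega
    have e1 : d - (d - k * s - 3 * (i - s)) = k * s + 3 * (i - s) := by omega
    rw [e1, pow_add, ← mul_assoc, conv2 _ hks, ← hγ, pow_mul (γ / 2) 3, ← hq, mul_assoc] at h6
    exact h6
  by_cases hiS : i ≤ S
  · -- few far elements
    obtain ⟨hb1, hb2⟩ := hBl hF hMo n k d i B (by omega) hdn hi1 hki hD hSh hB hblk
    have hmem : near d B₀ ∈ NF B d i := mem_NF.2 ⟨B₀, hB₀, hi, rfl⟩
    have hr1 : 1 ≤ d - k * i := by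
      by_contra hcon
      have h5 := hb2 (by omega)
      rw [h5] at hmem
      exact notMem_empty _ hmem
    have hKU1 := hb1 hr1
    have hmain : ((NF B d i).card : ℝ) ≤ 2 ^ (d - k * i) * (ε ^ (k * i) * (ε / 2)) := by
      have h6 := rec2 hS (by omega) n d (d - k * i - 1) (NF B d i) hdn hKU1 (supp_NF B)
      have e1 : d - (d - k * i - 1) = k * i + 1 := by omega
      rw [e1, pow_succ, ← mul_assoc, conv2 _ hki, ← hε, mul_assoc] at h6
      exact h6
    have htotR : (B.card : ℝ) ≤ ∑ s ∈ range i, ((n - d).choose s : ℝ) * (NF B d s).card +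
        ((n - d).choose i : ℝ) * (NF B d i).card := by
      rw [sum_range_succ] at htot
      exact_mod_cast htot
    have hsum1 : ∑ s ∈ range i, ((n - d).choose s : ℝ) * (NF B d s).card ≤
        ff n k d * 0.41796 := by
      calc ∑ s ∈ range i, ((n - d).choose s : ℝ) * (NF B d s).card
          ≤ ∑ s ∈ range i, (ff n k d * 1.29 * q ^ (i - s) : ℝ) := by
            apply sum_le_sum
            intro s hs
            have hs' := mem_range.1 hs
            calc ((n - d).choose s : ℝ) * (NF B d s).card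
                ≤ ((n - d).choose s : ℝ) * (2 ^ (d - k * s) * (γ ^ (k * s) * q ^ (i - s))) :=
                  mul_le_mul_of_nonneg_left (hcs3 s hs'.le) (Nat.cast_nonneg _)
              _ = (((n - d).choose s : ℝ) * 2 ^ (d - k * s)) * (γ ^ (k * s) * q ^ (i - s)) := by
                  ring
              _ ≤ ff n k d * (1.29 * q ^ (i - s)) := by
                  apply mul_le_mul (hff s hs'.le) _ (by positivity) hff0
                  exact mul_le_mul_of_nonneg_right (n1 s (by omega)) (by positivity)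
              _ = _ := by ring
        _ = ff n k d * 1.29 * ∑ s ∈ range i, q ^ (i - s) := by rw [mul_sum]
        _ ≤ ff n k d * 1.29 * 0.324 :=
            mul_le_mul_of_nonneg_left ((geo hq0 hq1 i).trans hqq) (by positivity)
        _ = _ := by ring
    have hsum2 : ((n - d).choose i : ℝ) * (NF B d i).card ≤ ff n k d * 0.56579 := by
      calc ((n - d).choose i : ℝ) * (NF B d i).card
          ≤ ((n - d).choose i : ℝ) * (2 ^ (d - k * i) * (ε ^ (k * i) * (ε / 2))) :=
            mul_le_mul_of_nonneg_left hmain (Nat.cast_nonneg _)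
        _ = (((n - d).choose i : ℝ) * 2 ^ (d - k * i)) * (ε ^ (k * i) * (ε / 2)) := by ring
        _ ≤ ff n k d * (1.065 * (1.0625 / 2)) := by
            apply mul_le_mul (hff i le_rfl) _ (by positivity) hff0
            apply mul_le_mul (n2 i hiS) (by linarith) (by positivity) (by norm_num)
        _ ≤ _ := by
            apply mul_le_mul_of_nonneg_left _ hff0
            norm_num
    have hfinal : (B.card : ℝ) ≤ ff n k d := by
      calc (B.card : ℝ) ≤ _ := htotR
        _ ≤ ff n k d * 0.41796 + ff n k d * 0.56579 := add_le_add hsum1 hsum2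
        _ ≤ _ := by linarith
    exact_mod_cast hfinal
  · -- many far elements
    push Not at hiS
    have htotR : (B.card : ℝ) ≤ ∑ s ∈ range (S + 1), ((n - d).choose s : ℝ) * (NF B d s).card +
        ∑ j ∈ range (i - S), ((n - d).choose (S + 1 + j) : ℝ) * (NF B d (S + 1 + j)).card := by
      have e1 : i + 1 = (S + 1) + (i - S) := by omega
      rw [e1, sum_range_add] at htot
      exact_mod_cast htot
    have hsum1 : ∑ s ∈ range (S + 1), ((n - d).choose s : ℝ) * (NF B d s).card ≤
        ff n k d * 0.41796 := by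
      calc ∑ s ∈ range (S + 1), ((n - d).choose s : ℝ) * (NF B d s).card
          ≤ ∑ s ∈ range (S + 1), (ff n k d * 1.29 * q ^ (S + 1 - s) : ℝ) := by
            apply sum_le_sum
            intro s hs
            have hs' := mem_range.1 hs
            have hsi : s ≤ i := by omega
            calc ((n - d).choose s : ℝ) * (NF B d s).card
                ≤ ((n - d).choose s : ℝ) * (2 ^ (d - k * s) * (γ ^ (k * s) * q ^ (i - s))) :=
                  mul_le_mul_of_nonneg_left (hcs3 s hsi) (Nat.cast_nonneg _)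
              _ = (((n - d).choose s : ℝ) * 2 ^ (d - k * s)) * (γ ^ (k * s) * q ^ (i - s)) := by
                  ring
              _ ≤ ff n k d * (1.29 * q ^ (S + 1 - s)) := by
                  apply mul_le_mul (hff s hsi) _ (by positivity) hff0
                  apply mul_le_mul (n1 s (by omega)) _ (by positivity) (by norm_num)
                  exact pow_le_pow_of_le_one hq0.le hq1.le (by omega)
              _ = _ := by ring
        _ = ff n k d * 1.29 * ∑ s ∈ range (S + 1), q ^ (S + 1 - s) := by rw [mul_sum]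
        _ ≤ ff n k d * 1.29 * 0.324 :=
            mul_le_mul_of_nonneg_left ((geo hq0 hq1 (S + 1)).trans hqq) (by positivity)
        _ = _ := by ring
    have hv : ∀ j, S + j ≤ i → ((n - d).choose (S + j) : ℝ) *
        (2 ^ (d - k * (S + j)) * δ ^ (k * (S + j))) ≤ ff n k d * 1.065 * 0.3225 ^ j := by
      intro j
      induction j with
      | zero =>
        intro h
        rw [Nat.add_zero, pow_zero, mul_one, ← mul_assoc]
        exact mul_le_mul (hff S (by omega)) (n3 S le_rfl) (by positivity) hff0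
      | succ j ih =>
        intro h
        have ih' := ih (by omega)
        have hc : ((n - d).choose (S + (j + 1)) : ℝ) * 4 ≤ ((n - d).choose (S + j) : ℝ) * 2 ^ k := by
          have h1 := Nat.choose_succ_right_eq (n - d) (S + j)
          have h2 : (n - d).choose (S + j + 1) * (S + 1) ≤ (n - d).choose (S + j) * (n - d) := by
            calc (n - d).choose (S + j + 1) * (S + 1)
                ≤ (n - d).choose (S + j + 1) * (S + j + 1) := Nat.mul_le_mul_left _ (by omega)
              _ = (n - d).choose (S + j) * (n - d - (S + j)) := h1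
              _ ≤ _ := Nat.mul_le_mul_left _ (Nat.sub_le _ _)
          have h3 : (S + 1) * ((n - d).choose (S + j + 1) * 4) ≤
              (S + 1) * ((n - d).choose (S + j) * 2 ^ k) := by
            calc (S + 1) * ((n - d).choose (S + j + 1) * 4)
                = ((n - d).choose (S + j + 1) * (S + 1)) * 4 := by ring
              _ ≤ ((n - d).choose (S + j) * (n - d)) * 4 := Nat.mul_le_mul_right _ h2
              _ = (n - d).choose (S + j) * (4 * (n - d)) := by ring
              _ ≤ (n - d).choose (S + j) * ((S + 1) * 2 ^ k) := Nat.mul_le_mul_left _ hS2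
              _ = _ := by ring
          have h4 := Nat.le_of_mul_le_mul_left h3 (by omega)
          rw [← add_assoc]
          exact_mod_cast h4
        have hkk : k * (S + (j + 1)) ≤ d := hksd _ h
        have e1 : k * (S + (j + 1)) = k * (S + j) + k := by ring
        have e2 : (2 : ℝ) ^ (d - k * (S + j)) = 2 ^ (d - k * (S + (j + 1))) * 2 ^ k := by
          rw [← pow_add]; congr 1; omega
        have e3 : δ ^ (k * (S + (j + 1))) = δ ^ (k * (S + j)) * δ ^ k := by
          rw [← pow_add, ← e1]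
        have hX : (0 : ℝ) ≤ 2 ^ (d - k * (S + (j + 1))) := by positivity
        have hY : (0 : ℝ) ≤ δ ^ (k * (S + j)) := by positivity
        calc ((n - d).choose (S + (j + 1)) : ℝ) *
              (2 ^ (d - k * (S + (j + 1))) * δ ^ (k * (S + (j + 1))))
            = (((n - d).choose (S + (j + 1)) : ℝ) * 4) *
              (2 ^ (d - k * (S + (j + 1))) * δ ^ (k * (S + j)) * (δ ^ k / 4)) := by
                rw [e3]; ring
          _ ≤ (((n - d).choose (S + j) : ℝ) * 2 ^ k) *
              (2 ^ (d - k * (S + (j + 1))) * δ ^ (k * (S + j)) * (1.29 / 4)) := by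
                apply mul_le_mul hc _ (by positivity) (by positivity)
                apply mul_le_mul_of_nonneg_left _ (by positivity)
                linarith
          _ = (((n - d).choose (S + j) : ℝ) * (2 ^ (d - k * (S + j)) * δ ^ (k * (S + j)))) *
              0.3225 := by rw [e2]; ring
          _ ≤ (ff n k d * 1.065 * 0.3225 ^ j) * 0.3225 :=
                mul_le_mul_of_nonneg_right ih' (by norm_num)
          _ = _ := by rw [pow_succ]; ring
    have hsum2 : ∑ j ∈ range (i - S), ((n - d).choose (S + 1 + j) : ℝ) *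
        (NF B d (S + 1 + j)).card ≤ ff n k d * 0.52 := by
      calc ∑ j ∈ range (i - S), ((n - d).choose (S + 1 + j) : ℝ) * (NF B d (S + 1 + j)).card
          ≤ ∑ j ∈ range (i - S), ff n k d * 1.065 * (0.3225 : ℝ) ^ (j + 1) := by
            apply sum_le_sum
            intro j hj
            have hj' := mem_range.1 hj
            have e1 : S + 1 + j = S + (j + 1) := by ring
            rw [e1]
            refine le_trans ?_ (hv (j + 1) (by omega))
            exact mul_le_mul_of_nonneg_left (hcs0 _ (by omega)) (Nat.cast_nonneg _)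
        _ = ff n k d * 1.065 * ∑ j ∈ range (i - S), (0.3225 : ℝ) ^ (j + 1) := by rw [mul_sum]
        _ ≤ ff n k d * 1.065 * (0.3225 / (1 - 0.3225)) :=
            mul_le_mul_of_nonneg_left (geo2 (by norm_num) (by norm_num) _) (by positivity)
        _ = ff n k d * (1.065 * (0.3225 / (1 - 0.3225))) := by ring
        _ ≤ _ := by
            apply mul_le_mul_of_nonneg_left _ hff0
            norm_num
    have hfinal : (B.card : ℝ) ≤ ff n k d := by
      calc (B.card : ℝ) ≤ _ := htotR
        _ ≤ ff n k d * 0.41796 + ff n k d * 0.52 := add_le_add hsum1 hsum2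
        _ ≤ _ := by linarith
    exact_mod_cast hfinal

theorem exact5 (hS : ShiftStatement) (hMo : MoveStatement) (hF : FreeStatement)
    (hBl : BlkStatement) (hSm : SmallIStatement) (hTo : TotalStatement) (hL : LowerStatement)
    {n k d : ℕ} (hk : 6 ≤ k) (hdn : d ≤ n) (hT : 256 * k * (n - d) ≤ 4 ^ k) :
    IsGreatest {c : ℕ | ∃ A : Finset (Finset (Fin n)), KU k d A ∧ A.card = c} (ff n k d) := by
  refine ⟨?_, ?_⟩
  · obtain ⟨i, hi, hmaxi⟩ := Finset.exists_mem_eq_sup (range (d / k + 1))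
      ⟨0, mem_range.2 (Nat.succ_pos _)⟩ (gi n k d)
    have hki : k * i ≤ d :=
      (Nat.mul_le_mul_left k (Nat.lt_succ_iff.1 (mem_range.1 hi))).trans (Nat.mul_div_le d k)
    obtain ⟨A, hA, hc⟩ := hL n k d i (by omega) hdn hki
    exact ⟨A, hA, by rw [hc]; exact hmaxi.symm⟩
  · rintro c ⟨A, hA, rfl⟩
    exact upper5 hS hMo hF hBl hSm hTo hk hdn hT A hA

end Pool.Agent.E8helper61.EF
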