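import Mathlib
import Pool.Agent.E8helper61.EF.Stm2

set_option autoImplicit false

open Finset

namespace Pool.Agent.E8helper61.EF

theorem num2 (hV : VandStatement) (hNb : NbStatement) : Num2Statement := by
  intro n k d hk hkd hn x hx
  have hdm := Nat.div_add_mod d k
  have htd : d / k ≤ d := Nat.div_le_self d k
  have ht1 : 1 ≤ d / k := (Nat.one_le_div_iff (by omega)).2 hkd
  have hrd : d % k ≤ d := Nat.mod_le d k
  have h2d : 2 * d ≤ n := by omega
  have h1 := hV n k d hk hkd h2d
  have h2 := hNb n k d (d / k) ht1 htd hn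
  set r := d % k with hr
  set t := d / k with ht
  have h3 : 2 ^ r * ∑ m ∈ range (t + 1), 2 ^ (k * (t - m)) * n.choose m =
      2 ^ r * (∑ m ∈ range t, 2 ^ (k * (t - m)) * n.choose m + n.choose t) := by
    rw [sum_range_succ]; simp
  rw [h3] at h1
  have h4 : (n - d).choose t ≤ (n - r).choose t := Nat.choose_le_choose t (by omega)
  have h5 : (n - r).choose t ≤ ∑ j ∈ range (t + 1), (n - r).choose j :=
    single_le_sum (f := fun j => (n - r).choose j) (fun _ _ => Nat.zero_le _)
      (mem_range.2 (Nat.lt_succ_self t))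
  have h6 : gg n k d = 2 ^ r * ∑ j ∈ range (t + 1), (n - r).choose j := rfl
  rw [h6]
  set S := ∑ s ∈ range t, (n - 2 * d).choose s * bb k (2 * d) (d - k * s)
  set Q := ∑ m ∈ range t, 2 ^ (k * (t - m)) * n.choose m
  set c := (n - 2 * d).choose t
  have h7 : 2 * (c * x) ≤ c * 2 ^ r := by nlinarith
  have h8 : 2 ^ r * (2 * Q + 2 * n.choose t) ≤ 2 ^ r * (2 * (n - d).choose t + c) :=
    Nat.mul_le_mul_left _ h2
  have h9 : 2 ^ r * (n - d).choose t ≤ 2 ^ r * ∑ j ∈ range (t + 1), (n - r).choose j :=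
    Nat.mul_le_mul_left _ (h4.trans h5)
  nlinarith

end Pool.Agent.E8helper61.EF
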