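import Mathlib
import Pool.Agent.E8helper61.EF.Asm3

set_option autoImplicit false

open Finset

namespace Pool.Agent.E8helper61.EF

/-- For `d < k` every family is contained in the power set of a `d`-set. -/
theorem union_le {n k d : ℕ} (hdk : d < k) (A : Finset (Finset (Fin n))) (hA : KU k d A) :
    (A.biUnion id).card ≤ d := by
  classical
  by_contra hcon
  have h1 : d + 1 ≤ (A.biUnion id).card := by omega
  obtain ⟨S, hS, hc⟩ := Finset.exists_subset_card_eq h1
  have hx : ∀ x ∈ S, ∃ B ∈ A, x ∈ B := by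
    intro x hx
    obtain ⟨B, hB, hxB⟩ := mem_biUnion.1 (hS hx)
    exact ⟨B, hB, hxB⟩
  choose! g hgA hgx using hx
  let e : Fin (d + 1) ≃ S := (Fintype.equivFinOfCardEq (by simp [hc])).symm
  have hne : S.Nonempty := card_pos.1 (by omega)
  let f : Fin k → Finset (Fin n) := fun j =>
    if h : j.val < d + 1 then g (e ⟨j.val, h⟩).1 else g (e 0).1
  have hf : ∀ j, f j ∈ A := by
    intro j
    simp only [f]
    split_ifs with h
    · exact hgA _ (e ⟨j.val, h⟩).2
    · exact hgA _ (e 0).2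
  have h2 := hA f hf
  have h3 : S ⊆ univ.biUnion f := by
    intro x hx
    have hj := (e.symm ⟨x, hx⟩).isLt
    refine mem_biUnion.2 ⟨⟨(e.symm ⟨x, hx⟩).val, by omega⟩, mem_univ _, ?_⟩
    simp only [f]
    rw [dif_pos hj]
    have : e ⟨(e.symm ⟨x, hx⟩).val, hj⟩ = ⟨x, hx⟩ := by
      have h4 : (⟨(e.symm ⟨x, hx⟩).val, hj⟩ : Fin (d + 1)) = e.symm ⟨x, hx⟩ := rfl
      rw [h4, Equiv.apply_symm_apply]
    rw [this]
    exact hgx x hx
  have h4 := card_le_card h3
  omega

theorem small_d (hL : LowerStatement) {n k d : ℕ} (hdk : d < k) (hdn : d ≤ n) :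
    IsGreatest {c : ℕ | ∃ A : Finset (Finset (Fin n)), KU k d A ∧ A.card = c} (ff n k d) := by
  have h0 : d / k = 0 := Nat.div_eq_of_lt hdk
  have h1 : ff n k d = 2 ^ d := by
    unfold ff gi
    rw [h0]
    simp
  rw [h1]
  refine ⟨?_, ?_⟩
  · obtain ⟨A, hA, hc⟩ := hL n k d 0 (by omega) hdn (by omega)
    exact ⟨A, hA, by rw [hc]; simp⟩
  · rintro c ⟨A, hA, rfl⟩
    have h2 : A ⊆ (A.biUnion id).powerset := by
      intro B hB
      rw [mem_powerset]
      exact subset_biUnion_of_mem id hB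
    calc A.card ≤ _ := card_le_card h2
      _ = 2 ^ (A.biUnion id).card := card_powerset _
      _ ≤ 2 ^ d := Nat.pow_le_pow_right (by norm_num) (union_le hdk A hA)

end Pool.Agent.E8helper61.EF
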